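import Mathlib

set_option autoImplicit false

namespace Pool.Agent.Results.MP_23f360_gt.Square

open Set Cardinal Topology

/-- d-independent abelian topological groups -/
def DInd (G : Type) [AddCommGroup G] [TopologicalSpace G] : Prop :=
  Nontrivial G ∧ ∀ S : AddSubgroup G, #S < continuum →
    ∃ D : AddSubgroup G, (D : Set G).Countable ∧ Dense (D : Set G) ∧ S ⊓ D = ⊥

theorem rec_ex {T Y : Type} [Nonempty Y] [LinearOrder T] [WellFoundedLT T] (R : T → (T → Y) → Y → Prop)
    (hR : ∀ t f, ∃ y, R t f y) (hloc : ∀ t f g y, (∀ s < t, f s = g s) → R t f y → R t g y) :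
    ∃ p : T → Y, ∀ t, R t p (p t) := by
  classical
  choose F hF using hR
  let p : T → Y := (wellFounded_lt (α := T)).fix
    fun t ih => F t fun s => if h : s < t then ih s h else Classical.arbitrary Y
  refine ⟨p, fun t => ?_⟩
  have : p t = F t fun s => if s < t then p s else Classical.arbitrary Y := by
    simp only [p]; rw [WellFounded.fix_eq]; simp
  rw [this]
  exact hloc t _ _ _ (fun s hs => if_pos hs) (hF t _)

theorem not_sub {α : Type} {S : Set α} (h : #S < #α) : ∃ x, x ∉ S := by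
  by_contra h'
  push Not at h'
  rw [eq_univ_of_forall h', mk_univ] at h
  exact h.false

abbrev R := Option (ℝ × Fin 3)
abbrev G := R × ℕ →₀ ZMod 2
abbrev Ch := G →ₗ[ZMod 2] ZMod 2

noncomputable def b (r : R) (n : ℕ) : G := Finsupp.single (r, n) 1

noncomputable def F : Submodule (ZMod 2) G := Finsupp.supported _ _ {k | k.1 = none}

noncomputable def sq (χ : Ch) (r : R) : ℕ → ZMod 2 := fun n => χ (b r n)

theorem bF (n : ℕ) : b none n ∈ F := Finsupp.single_mem_supported _ _ rfl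

theorem z2 (e : ZMod 2) : e = 0 ∨ e = 1 := by revert e; decide

theorem step (d : ℕ → G) (x : G) (Z : Set (ℕ → ZMod 2)) (hZ : #Z < continuum) :
    ∃ χ : {χ : Ch // (range (sq χ)).Countable}, sq χ.1 none ∉ Z ∧
      (Disjoint (Submodule.span (ZMod 2) (range d)) F → ∀ n, χ.1 (d n) = 0) ∧ (x ∈ F → x ≠ 0 → χ.1 x = 1) := by
  classical
  obtain ⟨ψ, h1, h2⟩ : ∃ ψ : Ch, sq ψ none ∉ Z ∧ (x ≠ 0 → ψ x = 1) := by
    obtain ⟨ψ₀, h0⟩ : ∃ ψ₀ : Ch, x ≠ 0 → ψ₀ x = 1 := by
      by_cases hx : x = 0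
      · exact ⟨0, fun h => absurd hx h⟩
      obtain ⟨k, hk⟩ := Finsupp.ne_iff.1 hx
      exact ⟨Finsupp.lapply k, fun _ => (z2 _).resolve_left hk⟩
    obtain ⟨ρ, hρ⟩ := not_sub (S := Z ∪ (fun z => z - sq ψ₀ none) '' Z) ((mk_union_le _ _).trans_lt (by
      rw [show #(ℕ → ZMod 2) = continuum by simp]
      exact add_lt_of_lt aleph0_le_continuum hZ (mk_image_le.trans_lt hZ)))
    let φ : Ch := Finsupp.linearCombination _ fun k => ρ k.2
    have h3 : sq φ none = ρ := by ext n; simp [sq, φ, b]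
    rcases z2 (φ x) with h | h
    · refine ⟨φ + ψ₀, fun h4 => hρ (Or.inr ⟨_, h4, ?_⟩), fun hx => by simp [h, h0 hx]⟩
      rw [← h3]; ext n; simp [sq]
    · exact ⟨φ, fun h4 => hρ (Or.inl (h3 ▸ h4)), fun _ => h⟩
  obtain ⟨E, hE, hE'⟩ : ∃ E, IsCompl F E ∧ (Disjoint (Submodule.span (ZMod 2) (range d)) F → ∀ n, d n ∈ E) := by
    by_cases h : Disjoint (Submodule.span (ZMod 2) (range d)) F
    · obtain ⟨E, h3, h4⟩ := h.exists_isCompl
      exact ⟨E, h4.symm, fun _ n => h3 (Submodule.subset_span ⟨n, rfl⟩)⟩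
    · obtain ⟨E, h3⟩ := F.exists_isCompl
      exact ⟨E, h3, fun h' => absurd h' h⟩
  let T : Set R := insert none (⋃ n, Prod.fst '' ((d n).support : Set (R × ℕ)))
  have hT : T.Countable := (countable_iUnion fun n => ((d n).support.countable_toSet).image _).insert _
  let π : G →ₗ[ZMod 2] G := (Submodule.subtype _).comp (Finsupp.restrictDom _ _ {k | k.1 ∈ T})
  have hπ : ∀ y, π y = y.filter fun k => k.1 ∈ T := fun y => by
    simp only [π, LinearMap.comp_apply, Submodule.subtype_apply, Finsupp.restrictDom_apply]; congr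
  let χ : Ch := ψ ∘ₗ F.projection E hE ∘ₗ π
  have h3 : ∀ y ∈ F, χ y = ψ y := fun y hy => by
    have : π y = y := by
      rw [hπ, Finsupp.filter_eq_self_iff]
      exact fun k hk => Or.inl (hy (Finsupp.mem_support_iff.2 hk))
    simp only [χ, LinearMap.comp_apply, this]
    rw [Submodule.projection_apply_of_mem_left hE hy]
  refine ⟨⟨χ, ((hT.image (sq χ)).insert 0).mono ?_⟩, ?_, fun h n => ?_, fun hx hx' => (h3 x hx).trans (h2 hx')⟩
  · rintro _ ⟨r, rfl⟩
    by_cases hr : r ∈ T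
    · exact Or.inr ⟨r, hr, rfl⟩
    · refine Or.inl (funext fun n => ?_)
      simp only [sq, χ, LinearMap.comp_apply, hπ, b]
      rw [Finsupp.filter_single_of_neg (fun k : R × ℕ => k.1 ∈ T) (a := (r, n)) hr]; simp
  · rwa [show sq χ none = sq ψ none from funext fun n => h3 _ (bF n)]
  · have : π (d n) = d n := by
      rw [hπ, Finsupp.filter_eq_self_iff]
      exact fun k hk => Or.inr (mem_iUnion.2 ⟨n, k, Finsupp.mem_support_iff.2 hk, rfl⟩)
    simp only [χ, LinearMap.comp_apply, this]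
    rw [Submodule.projection_apply_of_mem_right hE (hE' h n), map_zero]

abbrev I := (ℕ → G) × G

theorem chars : ∃ (_ : LinearOrder I) (χ : I → Ch) (H : I → AddSubgroup (ℕ → ZMod 2)),
    (∀ i j r, i < j → sq (χ i) r ∈ H j) ∧ ∀ j : I, sq (χ j) none ∉ H j ∧
      (Disjoint (Submodule.span (ZMod 2) (range j.1)) F → ∀ n, χ j (j.1 n) = 0) ∧
      (j.2 ∈ F → j.2 ≠ 0 → χ j j.2 = 1) := by
  obtain ⟨lo, _, ho⟩ := exists_ord_eq_type_lt I
  have hI : #I = continuum := by
    have : (2 : Cardinal.{0}) ≤ continuum := by exact_mod_cast (nat_lt_continuum 2).le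
    simp [mk_real, add_one_eq aleph0_le_continuum, max_eq_left this]
  have : Nonempty {χ : Ch // (range (sq χ)).Countable} := ⟨(step 0 0 ∅ (by simpa using continuum_pos)).choose⟩
  obtain ⟨p, hp⟩ := rec_ex (T := I) (Y := {χ : Ch // (range (sq χ)).Countable})
    (fun j f χ => sq χ.1 none ∉ AddSubgroup.closure (insert 0 (⋃ i : Iio j, range (sq (f i).1))) ∧
      (Disjoint (Submodule.span (ZMod 2) (range j.1)) F → ∀ n, χ.1 (j.1 n) = 0) ∧
      (j.2 ∈ F → j.2 ≠ 0 → χ.1 j.2 = 1)) (fun j f => step j.1 j.2 _ (by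
        have h1 : #(Iio j) < continuum := hI ▸ mk_Iio_lt j ho
        have : Nonempty ↥(insert 0 (⋃ i : Iio j, range (sq (f i).1))) := ⟨⟨_, mem_insert _ _⟩⟩
        rw [FreeAddGroup.closure_eq_range, AddMonoidHom.coe_range]
        refine mk_range_le.trans_lt ?_
        rw [mk_freeAddGroup]
        refine max_lt (mk_insert_le.trans_lt (add_lt_of_lt aleph0_le_continuum ((mk_iUnion_le _).trans_lt
          (mul_lt_of_lt aleph0_le_continuum h1 ((ciSup_le' fun i : Iio j => (f i).2.le_aleph0).trans_lt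
            aleph0_lt_continuum))) (one_lt_aleph0.trans aleph0_lt_continuum))) aleph0_lt_continuum))
    (fun t f g y h => by
      rw [show (fun i : Iio t => range (sq (f i).1)) = fun i : Iio t => range (sq (g i).1) from
        funext fun i => by rw [h i i.2]]
      exact id)
  exact ⟨lo, fun i => (p i).1, fun j => AddSubgroup.closure (insert 0 (⋃ i : Iio j, range (sq (p i).1))),
    fun i j r h => AddSubgroup.subset_closure (Or.inr (mem_iUnion.2 ⟨⟨i, h⟩, r, rfl⟩)), hp⟩

noncomputable def gn (a : ℝ) (k : Fin 3 × ℕ) : G × G :=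
  ![(b none k.2, b (some (a, 0)) k.2), (b (some (a, 1)) k.2, b none k.2),
    (b none k.2 + b (some (a, 2)) k.2, b (some (a, 2)) k.2)] k.1

noncomputable def L (a : ℝ) : (Fin 3 × ℕ →₀ ZMod 2) →ₗ[ZMod 2] G × G := Finsupp.linearCombination _ (gn a)

theorem L_coef (a : ℝ) (c : Fin 3 × ℕ →₀ ZMod 2) (n : ℕ) : (L a c).2 (some (a, 0), n) = c (0, n) ∧
    (L a c).1 (some (a, 1), n) = c (1, n) ∧ (L a c).2 (some (a, 2), n) = c (2, n) := by
  induction c using Finsupp.induction_linear with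
  | zero => simp
  | add f g hf hg => simp [hf, hg]
  | single k e =>
    obtain ⟨k, m⟩ := k
    fin_cases k <;> simp [L, gn, b, Finsupp.single_apply]

theorem surj [LinearOrder I] (χ : I → Ch) (H : I → AddSubgroup (ℕ → ZMod 2))
    (h1 : ∀ i j r, i < j → sq (χ i) r ∈ H j) (h2 : ∀ j, sq (χ j) none ∉ H j) (a : ℝ) (J : Finset I)
    (p q : I → ZMod 2) : ∃ c, ∀ i ∈ J, χ i (L a c).1 = p i ∧ χ i (L a c).2 = q i := by
  classical
  let Ψ : (Fin 3 × ℕ →₀ ZMod 2) →ₗ[ZMod 2] (J × Bool → ZMod 2) :=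
    LinearMap.pi fun i => χ i.1 ∘ₗ (if i.2 then LinearMap.fst _ _ _ else LinearMap.snd _ _ _) ∘ₗ L a
  suffices h : LinearMap.range Ψ = ⊤ by
    obtain ⟨c, hc⟩ := LinearMap.range_eq_top.1 h fun i => if i.2 then p i.1 else q i.1
    exact ⟨c, fun i hi => ⟨congrFun hc (⟨i, hi⟩, true), congrFun hc (⟨i, hi⟩, false)⟩⟩
  by_contra h
  obtain ⟨l, hl, hl'⟩ := (LinearMap.range Ψ).exists_le_ker_of_lt_top (lt_top_iff_ne_top.2 h)
  obtain ⟨m, hm⟩ : ∃ m : J × Bool → ZMod 2, ∀ v, l v = ∑ i, v i * m i :=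
    ⟨_, fun v => l.pi_apply_eq_sum_univ v⟩
  obtain ⟨j, hj, hj'⟩ := (Finset.univ.filter fun i : J => m (i, true) ≠ 0 ∨ m (i, false) ≠ 0).exists_max_image
    (fun i => i.1) (by
      by_contra h3
      simp only [Finset.not_nonempty_iff_eq_empty, Finset.filter_eq_empty_iff, Finset.mem_univ, not_or,
        not_not, true_imp_iff] at h3
      refine hl (LinearMap.ext fun v => ?_)
      rw [hm]
      refine Finset.sum_eq_zero ?_
      rintro ⟨i, _ | _⟩ -
      · exact mul_eq_zero_of_right _ (h3 (x := i)).2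
      · exact mul_eq_zero_of_right _ (h3 (x := i)).1)
  let t : Fin 3 → J → ℕ → ZMod 2 := fun k i n =>
    χ i (gn a (k, n)).1 * m (i, true) + χ i (gn a (k, n)).2 * m (i, false)
  have h3 : ∀ k, t k j ∈ H j := fun k => by
    have h4 : ∑ i, t k i = 0 := funext fun n => by
      have := hl' ⟨Finsupp.single (k, n) 1, rfl⟩
      rw [LinearMap.mem_ker, hm, Fintype.sum_prod_type] at this
      simpa [t, Ψ, L] using this
    rw [← Finset.add_sum_erase _ _ (Finset.mem_univ j), add_eq_zero_iff_eq_neg] at h4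
    rw [h4]
    refine neg_mem (sum_mem fun i hi => ?_)
    by_cases h5 : m (i, true) ≠ 0 ∨ m (i, false) ≠ 0
    · have h6 : i.1 < j.1 := (hj' i (by simpa using h5)).lt_of_ne fun e => (Finset.mem_erase.1 hi).1 (Subtype.ext e)
      have h7 : ∀ r (e : ZMod 2), (fun n => χ i (b r n) * e) ∈ H j := fun r e => by
        rcases z2 e with rfl | rfl
        · simp only [mul_zero]; exact (H j).zero_mem
        · simp only [mul_one]; exact h1 _ _ r h6
      fin_cases k
      · exact add_mem (h7 _ _) (h7 _ _)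
      · exact add_mem (h7 _ _) (h7 _ _)
      · convert add_mem (add_mem (h7 none (m (i, true))) (h7 (some (a, 2)) (m (i, true))))
          (h7 (some (a, 2)) (m (i, false))) using 1
        ext n; simp [t, gn, add_mul]
    · push Not at h5
      simp only [t, h5, mul_zero, add_zero]; exact (H j).zero_mem
  simp only [Finset.mem_filter, Finset.mem_univ, true_and] at hj
  refine h2 j ?_
  rcases z2 (m (j, true)) with e | e <;> rcases z2 (m (j, false)) with e' | e'
  · simp [e, e'] at hj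
  · convert h3 1 using 1; ext n; simp [t, gn, e, e', sq]
  · convert h3 0 using 1; ext n; simp [t, gn, e, e', sq]
  · convert h3 2 using 1; ext n; simp [t, gn, e, e', sq, add_assoc, CharTwo.add_self_eq_zero]

theorem result : ∃ (X : Type) (_ : AddCommGroup X) (_ : TopologicalSpace X),
    IsTopologicalAddGroup X ∧ T2Space X ∧ DInd (X × X) ∧ ¬ DInd X := by
  obtain ⟨_, χ, H, h1, h2⟩ := chars
  let Φ : G →+ (I → ZMod 2) := AddMonoidHom.pi fun i => (χ i).toAddMonoidHom
  letI τ : TopologicalSpace G := TopologicalSpace.induced Φ inferInstance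
  have hΦ : IsInducing Φ := ⟨rfl⟩
  have hb : b none 0 ≠ 0 := by simp [b]
  refine ⟨G, inferInstance, τ, topologicalAddGroup_induced Φ, ?_, ⟨inferInstance, fun S hS => ?_⟩, ?_⟩
  · refine T2Space.of_injective_continuous ((injective_iff_map_eq_zero Φ).2 fun x hx => ?_) hΦ.continuous
    by_contra h0
    by_cases hF : x ∈ F
    · exact zero_ne_one ((congrFun hx (0, x)).symm.trans ((h2 (0, x)).2.2 hF h0))
    have h3 := (h2 (fun _ => x + b none 0, b none 0)).2
    have h4 := h3.1 (by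
      rw [range_const]
      exact Submodule.disjoint_span_singleton_of_notMem (fun h => hF ((F.add_mem_iff_left (bF 0)).1 h)) |>.symm) 0
    rw [map_add, h3.2 (bF 0) hb, show χ _ x = 0 from congrFun hx _] at h4
    simp at h4
  · obtain ⟨a, ha⟩ := not_sub (S := ⋃ y : S, (fun k : R × ℕ => k.1.elim 0 Prod.fst) ''
        (↑(y.1.1.support) ∪ ↑(y.1.2.support))) (by
      rw [mk_real]
      exact (mk_iUnion_le _).trans_lt (mul_lt_of_lt aleph0_le_continuum hS ((ciSup_le' fun y =>
        (((Finset.countable_toSet _).union (Finset.countable_toSet _)).image _).le_aleph0).trans_lt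
          aleph0_lt_continuum)))
    refine ⟨(LinearMap.range (L a)).toAddSubgroup, countable_range _, ?_, ?_⟩
    · rw [(hΦ.prodMap hΦ).dense_iff]
      intro z
      rw [mem_closure_iff_nhds]
      intro U hU
      rw [nhds_prod_eq, Filter.mem_prod_iff] at hU
      obtain ⟨U₁, hU₁, U₂, hU₂, hU⟩ := hU
      rw [nhds_pi, Filter.mem_pi] at hU₁ hU₂
      obtain ⟨J₁, hJ₁, t₁, ht₁, hs₁⟩ := hU₁
      obtain ⟨J₂, hJ₂, t₂, ht₂, hs₂⟩ := hU₂
      obtain ⟨c, hc⟩ := surj χ H h1 (fun j => (h2 j).1) a (hJ₁.union hJ₂).toFinset (Φ z.1) (Φ z.2)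
      refine ⟨_, hU ⟨hs₁ fun i hi => ?_, hs₂ fun i hi => ?_⟩, L a c, ⟨c, rfl⟩, rfl⟩
      · exact mem_of_eq_of_mem (hc i (by simp [hi])).1 (mem_of_mem_nhds (ht₁ i))
      · exact mem_of_eq_of_mem (hc i (by simp [hi])).2 (mem_of_mem_nhds (ht₂ i))
    · rw [eq_bot_iff]
      rintro _ ⟨hy, c, rfl⟩
      have h3 : ∀ k n, (L a c).1 (some (a, k), n) = 0 ∧ (L a c).2 (some (a, k), n) = 0 := fun k n =>
        ⟨not_not.1 fun h => ha (mem_iUnion.2 ⟨⟨_, hy⟩, _, Or.inl (Finsupp.mem_support_iff.2 h), rfl⟩),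
          not_not.1 fun h => ha (mem_iUnion.2 ⟨⟨_, hy⟩, _, Or.inr (Finsupp.mem_support_iff.2 h), rfl⟩)⟩
      have : c = 0 := by
        ext ⟨k, n⟩
        have h4 := L_coef a c n
        simp only [h3] at h4
        fin_cases k
        exacts [h4.1.symm, h4.2.1.symm, h4.2.2.symm]
      simp [this]
  · rintro ⟨-, h⟩
    have hF : (F : Set G).Countable := by
      refine (countable_range (Finsupp.linearCombination (ZMod 2) (b none))).mono ?_
      rw [F, Finsupp.supported_eq_span_single, ← LinearMap.coe_range, Finsupp.range_linearCombination]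
      refine Submodule.span_mono ?_
      rintro _ ⟨⟨r, n⟩, rfl, rfl⟩
      exact ⟨n, rfl⟩
    obtain ⟨D, hD, hD', hD''⟩ := h F.toAddSubgroup (hF.le_aleph0.trans_lt aleph0_lt_continuum)
    obtain ⟨d, hd⟩ := hD.exists_eq_range ⟨0, D.zero_mem⟩
    have h3 := (h2 (d, b none 0)).2
    have h4 := h3.1 (by
      rw [← hd, show (D : Set G) = AddSubgroup.toZModSubmodule 2 D from rfl, Submodule.span_eq,
        Submodule.disjoint_def]
      exact fun x hx hx' => (AddSubgroup.mem_bot.1 (hD''.le ⟨hx', hx⟩)))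
    have h5 : (χ (d, b none 0) : G → ZMod 2) = fun _ => 0 :=
      ((continuous_apply _).comp hΦ.continuous).ext_on hD' continuous_const (by
        rw [hd]; rintro _ ⟨n, rfl⟩; exact h4 n)
    exact zero_ne_one ((congrFun h5 _).symm.trans (h3.2 (bF 0) hb))

end Pool.Agent.Results.MP_23f360_gt.Square
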